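import Pool.Agent.Helper3.FewP.Goals3

/-!
# Packet STRIP-BK1 (MP_d3128a_ag)
-/

set_option autoImplicit false

namespace Pool.Agent.Helper86.FewP.BK1

open Pool.Agent.Helper3.FewP

/-- **BK1.** -/
theorem t : G_STR → G_BK1 := by
  classical
  intro hSTR k P m N s s0 hk hP hadm hc
  let g : Fin N × Fin k → ℤ × ℤ := fun c => (((c.1 : ℕ) : ℤ), ((c.2 : ℕ) : ℤ) + k * s0 c)
  have hg : Function.Injective g := by
    rintro ⟨j, r⟩ ⟨j', r'⟩ h
    have h1 : ((j : ℕ) : ℤ) = ((j' : ℕ) : ℤ) := congrArg Prod.fst h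
    have h2 : ((r : ℕ) : ℤ) + k * s0 (j, r) = ((r' : ℕ) : ℤ) + k * s0 (j', r') :=
      congrArg Prod.snd h
    have hj : j = j' := Fin.ext (by exact_mod_cast h1)
    have hr : r = r' := by
      apply Fin.ext
      have h3 : ((r : ℕ) : ℤ) % k = ((r' : ℕ) : ℤ) % k := by
        have h4 := congrArg (fun u : ℤ => u % k) h2
        simp only [Int.add_mul_emod_self_left] at h4
        exact h4
      rw [Int.emod_eq_of_lt (by positivity) (by exact_mod_cast r.2),
        Int.emod_eq_of_lt (by positivity) (by exact_mod_cast r'.2)] at h3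
      exact_mod_cast h3
    rw [hj, hr]
  let S : Finset (ℤ × ℤ) := Finset.univ.image g
  have hS : ∀ x ∈ S, Strip k P N 0 x := by
    intro x hx
    obtain ⟨c, -, rfl⟩ := Finset.mem_image.1 hx
    refine ⟨by positivity, ?_, ?_, ?_⟩
    · show ((c.1 : ℕ) : ℤ) < N
      exact_mod_cast c.1.2
    · have := (hc c).1
      rw [mul_zero]
      exact this
    · have := (hc c).2
      rw [zero_add]
      exact this
  have h := hSTR ℚ k P m N s 0 S hk hP hadm hS
  let e : Fin N × Fin k → S := fun c => ⟨g c, Finset.mem_image_of_mem g (Finset.mem_univ c)⟩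
  have he : Function.Injective e := by
    intro a b hab
    exact hg (congrArg Subtype.val hab)
  exact h.comp e he

end Pool.Agent.Helper86.FewP.BK1
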